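import Pool.Agent.H.MP_c03fb1_al.A

namespace Pool.Agent.H.MP_7d9e78_al
open Pool.Agent.H.MP_c03fb1_al Polynomial

abbrev Q4 (R : Type) := R × R × R × R

def jm {R : Type} [CommRing R] (a b : Q4 R) : Q4 R :=
  (a.1 * b.1 + (a.2.1 * b.2.1 + a.2.2.1 * b.2.2.1 + a.2.2.2 * b.2.2.2),
    a.1 * b.2.1 + b.1 * a.2.1, a.1 * b.2.2.1 + b.1 * a.2.2.1, a.1 * b.2.2.2 + b.1 * a.2.2.2)

theorem jm_comm {R : Type} [CommRing R] (a b : Q4 R) : jm a b = jm b a := by
  unfold jm; ext <;> simp only <;> ring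

def bJ (K : Type) [Field K] : Q4 K →ₗ[K] Q4 K →ₗ[K] Q4 K :=
  LinearMap.mk₂ K jm
    (fun x x' y => by unfold jm; ext <;> simp <;> ring)
    (fun c x y => by unfold jm; ext <;> simp <;> ring)
    (fun x y y' => by unfold jm; ext <;> simp <;> ring)
    (fun c x y => by unfold jm; ext <;> simp <;> ring)

theorem bJ_apply {K : Type} [Field K] (x y : Q4 K) : bJ K x y = jm x y := rfl

abbrev MM (R : Type) := Fin 11 → Q4 R

def mm {R : Type} [CommRing R] (u v : MM R) : MM R := fun j => jm (u j) (v j)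

theorem mm_comm {R : Type} [CommRing R] (a b : MM R) : mm a b = mm b a :=
  funext fun _ => jm_comm _ _

noncomputable def bM (K : Type) [Field K] : MM K[X] →ₗ[K] MM K[X] →ₗ[K] MM K[X] :=
  LinearMap.mk₂ K mm
    (fun x x' y => by funext j; unfold mm jm; ext1; (simp; ring); ext1; (simp; ring); ext1 <;> (simp; ring))
    (fun c x y => by funext j; unfold mm jm; simp [smul_add])
    (fun x y y' => by funext j; unfold mm jm; ext1; (simp; ring); ext1; (simp; ring); ext1 <;> (simp; ring))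
    (fun c x y => by funext j; unfold mm jm; simp [smul_add])

variable {K : Type} [Field K]

theorem bM_apply (x y : MM K[X]) : bM K x y = mm x y := rfl

noncomputable def evL (s : K) (j : Fin 11) : MM K[X] →ₗ[K] Q4 K where
  toFun := fun u => ((u j).1.eval s, (u j).2.1.eval s, (u j).2.2.1.eval s, (u j).2.2.2.eval s)
  map_add' := fun x y => by simp
  map_smul' := fun c x => by simp

theorem satM [Infinite K] {f : Fr K} (hf : Sat (bJ K) f) : Sat (bM K) f := by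
  refine Sat.sub (bM K) (bJ K) (fun p : K × Fin 11 => evL p.1 p.2) ?_ ?_ hf
  · intro p x y
    simp [evL, bM_apply, bJ_apply, mm, jm]
  · intro u h
    funext j
    simp only [evL, LinearMap.coe_mk, AddHom.coe_mk, Prod.mk_eq_zero, Prod.forall] at h
    ext1
    · exact Polynomial.funext fun s => by simp [(h s j).1]
    · ext1
      · exact Polynomial.funext fun s => by simp [(h s j).2.1]
      · ext1
        · exact Polynomial.funext fun s => by simp [(h s j).2.2.1]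
        · exact Polynomial.funext fun s => by simp [(h s j).2.2.2]

def gn : Fin 3 → MM ℤ :=
  ![![(0, 0, 1, 0), (-1, 0, 0, 0), (0, 0, 0, 1), (-1, -1, -1, 0), (-1, 0, -1, 0), (0, 1, -1, 0), (1, 1, 1, -1), (1, 0, -1, 1), (0, -1, 0, 0), (1, -1, -1, 0), (-1, 1, -1, -1)],
    ![(-1, 0, 0, -1), (1, -1, -1, -1), (1, 0, -1, -1), (0, 1, 0, -1), (-1, 1, 0, 1), (0, 0, 1, 0), (1, 0, 1, 1), (1, 0, 0, -1), (1, 0, 1, 0), (0, 1, 1, 1), (1, 0, 1, -1)],
    ![(-1, -1, 1, 1), (-1, 0, 0, 0), (0, 1, 0, -1), (-1, -1, 1, 0), (0, -1, 0, 0), (1, 0, 0, 1), (0, 0, 0, 1), (0, -1, 0, 0), (1, 0, -1, 0), (-1, 0, 1, -1), (1, 0, -1, -1)]]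

def cf : MM ℤ :=
  ![(0, 1, 0, 1), (0, 1, 0, 0), (0, 0, 1, 2), (2, 1, 0, 2), (0, 0, 0, 1), (2, 1, 1, 1), (1, 1, 0, 0), (2, 1, 0, 1), (1, 2, 2, 0), (2, 2, 2, 0), (2, 2, 2, 2)]

def mu (u : MM ℤ) : ℤ := ∑ j, ((cf j).1 * (u j).1 + (cf j).2.1 * (u j).2.1 +
  (cf j).2.2.1 * (u j).2.2.1 + (cf j).2.2.2 * (u j).2.2.2)

def kk : MM ℤ := mm (gn 0) (gn 1)

theorem chk : ∀ i j l : Fin 3, mu (mm (mm (mm kk (gn i)) (gn j)) (gn l)) % 3 = 0 ∧
    mu (mm (mm kk (mm (gn i) (gn j))) (gn l)) % 3 = 0 ∧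
    mu (mm (mm kk (gn i)) (mm (gn j) (gn l))) % 3 = 0 ∧
    mu (mm kk (mm (mm (gn i) (gn j)) (gn l))) % 3 = 0 := by decide +kernel

inductive Mon : ℕ → MM ℤ → Prop
  | gen (i : Fin 3) : Mon 1 (gn i)
  | mul {a b : ℕ} {u v : MM ℤ} : Mon a u → Mon b v → Mon (a + b) (mm u v)

inductive Idl : ℕ → MM ℤ → Prop
  | base : Idl 2 kk
  | mul {a b : ℕ} {u v : MM ℤ} : Idl a u → Mon b v → Idl (a + b) (mm u v)

theorem Mon.pos {d : ℕ} {u : MM ℤ} (h : Mon d u) : 1 ≤ d := by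
  induction h with
  | gen i => exact le_rfl
  | mul _ _ h1 h2 => omega

theorem Idl.pos {d : ℕ} {u : MM ℤ} (h : Idl d u) : 2 ≤ d := by
  induction h with
  | base => exact le_rfl
  | mul _ _ h1 => omega

theorem Idl.mon {d : ℕ} {u : MM ℤ} (h : Idl d u) : Mon d u := by
  induction h with
  | base => exact Mon.mul (Mon.gen 0) (Mon.gen 1)
  | mul _ h2 h1 => exact Mon.mul h1 h2

theorem Mon.inv {d : ℕ} {w : MM ℤ} (h : Mon d w) : (d = 1 ∧ ∃ i, w = gn i) ∨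
    ∃ a b u v, d = a + b ∧ Mon a u ∧ Mon b v ∧ w = mm u v := by
  cases h with
  | gen i => exact Or.inl ⟨rfl, i, rfl⟩
  | mul h1 h2 => exact Or.inr ⟨_, _, _, _, rfl, h1, h2, rfl⟩

theorem Idl.inv {d : ℕ} {w : MM ℤ} (h : Idl d w) : (d = 2 ∧ w = kk) ∨
    ∃ a b u v, d = a + b ∧ Idl a u ∧ Mon b v ∧ w = mm u v := by
  cases h with
  | base => exact Or.inl ⟨rfl, rfl⟩
  | mul h1 h2 => exact Or.inr ⟨_, _, _, _, rfl, h1, h2, rfl⟩

theorem mon1 {w : MM ℤ} (h : Mon 1 w) : ∃ i, w = gn i := by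
  rcases h.inv with ⟨-, h⟩ | ⟨a, b, u, v, e, h1, h2, -⟩
  · exact h
  · have := h1.pos; have := h2.pos; omega

theorem mon2 {w : MM ℤ} (h : Mon 2 w) : ∃ i j, w = mm (gn i) (gn j) := by
  rcases h.inv with ⟨h, -⟩ | ⟨a, b, u, v, e, h1, h2, rfl⟩
  · omega
  · have := h1.pos; have := h2.pos
    obtain rfl : a = 1 := by omega
    obtain rfl : b = 1 := by omega
    obtain ⟨i, rfl⟩ := mon1 h1
    obtain ⟨j, rfl⟩ := mon1 h2
    exact ⟨i, j, rfl⟩

theorem mon3 {w : MM ℤ} (h : Mon 3 w) : ∃ i j l, w = mm (mm (gn i) (gn j)) (gn l) := by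
  rcases h.inv with ⟨h, -⟩ | ⟨a, b, u, v, e, h1, h2, rfl⟩
  · omega
  · have := h1.pos; have := h2.pos
    rcases (by omega : (a = 1 ∧ b = 2) ∨ (a = 2 ∧ b = 1)) with ⟨rfl, rfl⟩ | ⟨rfl, rfl⟩
    · obtain ⟨l, rfl⟩ := mon1 h1
      obtain ⟨i, j, rfl⟩ := mon2 h2
      exact ⟨i, j, l, mm_comm _ _⟩
    · obtain ⟨l, rfl⟩ := mon1 h2
      obtain ⟨i, j, rfl⟩ := mon2 h1
      exact ⟨i, j, l, rfl⟩

theorem idl2 {w : MM ℤ} (h : Idl 2 w) : w = kk := by
  rcases h.inv with ⟨-, h⟩ | ⟨a, b, u, v, e, h1, h2, -⟩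
  · exact h
  · have := h1.pos; have := h2.pos; omega

theorem idl3 {w : MM ℤ} (h : Idl 3 w) : ∃ i, w = mm kk (gn i) := by
  rcases h.inv with ⟨h, -⟩ | ⟨a, b, u, v, e, h1, h2, rfl⟩
  · omega
  · have := h1.pos; have := h2.pos
    obtain rfl : a = 2 := by omega
    obtain rfl : b = 1 := by omega
    obtain rfl := idl2 h1
    obtain ⟨j, rfl⟩ := mon1 h2
    exact ⟨j, rfl⟩

theorem idl4 {w : MM ℤ} (h : Idl 4 w) :
    ∃ i j, w = mm (mm kk (gn i)) (gn j) ∨ w = mm kk (mm (gn i) (gn j)) := by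
  rcases h.inv with ⟨h, -⟩ | ⟨a, b, u, v, e, h1, h2, rfl⟩
  · omega
  · have := h1.pos; have := h2.pos
    rcases (by omega : (a = 3 ∧ b = 1) ∨ (a = 2 ∧ b = 2)) with ⟨rfl, rfl⟩ | ⟨rfl, rfl⟩
    · obtain ⟨i, rfl⟩ := idl3 h1
      obtain ⟨j, rfl⟩ := mon1 h2
      exact ⟨i, j, Or.inl rfl⟩
    · obtain rfl := idl2 h1
      obtain ⟨i, j, rfl⟩ := mon2 h2
      exact ⟨i, j, Or.inr rfl⟩

theorem idl5 {w : MM ℤ} (h : Idl 5 w) : mu w % 3 = 0 := by
  rcases h.inv with ⟨h, -⟩ | ⟨a, b, u, v, e, h1, h2, rfl⟩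
  · omega
  · have := h1.pos; have := h2.pos
    rcases (by omega : (a = 4 ∧ b = 1) ∨ (a = 3 ∧ b = 2) ∨ (a = 2 ∧ b = 3)) with
      ⟨rfl, rfl⟩ | ⟨rfl, rfl⟩ | ⟨rfl, rfl⟩
    · obtain ⟨l, rfl⟩ := mon1 h2
      obtain ⟨i, j, rfl | rfl⟩ := idl4 h1
      · exact (chk i j l).1
      · exact (chk i j l).2.1
    · obtain ⟨i, rfl⟩ := idl3 h1
      obtain ⟨j, l, rfl⟩ := mon2 h2
      exact (chk i j l).2.2.1
    · obtain rfl := idl2 h1
      obtain ⟨i, j, l, rfl⟩ := mon3 h2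
      exact (chk i j l).2.2.2

noncomputable def emb (K : Type) [Field K] (d : ℕ) (u : MM ℤ) : MM K[X] := fun j =>
  (((u j).1 : K[X]) * X ^ d, ((u j).2.1 : K[X]) * X ^ d, ((u j).2.2.1 : K[X]) * X ^ d,
    ((u j).2.2.2 : K[X]) * X ^ d)

theorem emb_mul (a b : ℕ) (u v : MM ℤ) :
    bM K (emb K a u) (emb K b v) = emb K (a + b) (mm u v) := by
  funext j
  rw [bM_apply]
  unfold emb mm jm
  ext1
  · push_cast; ring
  · ext1
    · push_cast; ring
    · ext1 <;> (push_cast; ring)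

noncomputable def La (K : Type) [Field K] : MM K[X] →ₗ[K] K where
  toFun := fun u => ∑ j, (((cf j).1 : K) * (u j).1.coeff 5 + ((cf j).2.1 : K) * (u j).2.1.coeff 5 +
    ((cf j).2.2.1 : K) * (u j).2.2.1.coeff 5 + ((cf j).2.2.2 : K) * (u j).2.2.2.coeff 5)
  map_add' := fun x y => by
    rw [← Finset.sum_add_distrib]
    exact Finset.sum_congr rfl fun j _ => by simp; ring
  map_smul' := fun c x => by
    rw [RingHom.id_apply, Finset.smul_sum]
    exact Finset.sum_congr rfl fun j _ => by simp; ring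

theorem cfX (n : ℤ) (d : ℕ) : ((n : K[X]) * X ^ d).coeff 5 = if d = 5 then (n : K) else 0 := by
  rw [← map_intCast (C : K →+* K[X]) n, coeff_C_mul, coeff_X_pow]
  by_cases h : d = 5
  · simp [h]
  · simp [h, Ne.symm h]

theorem La_emb (d : ℕ) (u : MM ℤ) : La K (emb K d u) = if d = 5 then (mu u : K) else 0 := by
  simp only [La, emb, LinearMap.coe_mk, AddHom.coe_mk, cfX, mu]
  split_ifs
  · push_cast; rfl
  · simp

noncomputable def SS (K : Type) [Field K] : Submodule K (MM K[X]) :=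
  Submodule.span K {x | ∃ d u, Mon d u ∧ x = emb K d u}

noncomputable def II (K : Type) [Field K] : Submodule K (MM K[X]) :=
  Submodule.span K {x | ∃ d u, Idl d u ∧ x = emb K d u}

theorem SS_mul {x y : MM K[X]} (hx : x ∈ SS K) (hy : y ∈ SS K) : bM K x y ∈ SS K := by
  refine (Submodule.map₂_le_map₂ (f := bM K) le_rfl le_rfl |>.trans ?_ :
    Submodule.map₂ (bM K) (SS K) (SS K) ≤ SS K) (Submodule.apply_mem_map₂ _ hx hy)
  unfold SS
  rw [Submodule.map₂_span_span, Submodule.span_le]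
  rintro _ ⟨_, ⟨a, u, hu, rfl⟩, _, ⟨b, v, hv, rfl⟩, rfl⟩
  exact Submodule.subset_span ⟨a + b, _, hu.mul hv, emb_mul a b u v⟩

theorem II_mul {x y : MM K[X]} (hx : x ∈ II K) (hy : y ∈ SS K) : bM K x y ∈ II K := by
  refine (Submodule.map₂_le_map₂ (f := bM K) le_rfl le_rfl |>.trans ?_ :
    Submodule.map₂ (bM K) (II K) (SS K) ≤ II K) (Submodule.apply_mem_map₂ _ hx hy)
  unfold SS II
  rw [Submodule.map₂_span_span, Submodule.span_le]
  rintro _ ⟨_, ⟨a, u, hu, rfl⟩, _, ⟨b, v, hv, rfl⟩, rfl⟩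
  exact Submodule.subset_span ⟨a + b, _, hu.mul hv, emb_mul a b u v⟩

theorem La_II [CharP K 3] {x : MM K[X]} (hx : x ∈ II K) : La K x = 0 := by
  have : II K ≤ LinearMap.ker (La K) := by
    unfold II
    rw [Submodule.span_le]
    rintro _ ⟨d, u, hu, rfl⟩
    change La K _ = 0
    rw [La_emb]
    split_ifs with h
    · subst h
      exact (CharP.intCast_eq_zero_iff K 3 _).2 (Int.dvd_of_emod_eq_zero (idl5 hu))
    · rfl
  exact this hx

noncomputable def bS (K : Type) [Field K] : SS K →ₗ[K] SS K →ₗ[K] SS K :=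
  LinearMap.mk₂ K (fun x y => ⟨bM K x y, SS_mul x.2 y.2⟩)
    (fun x x' y => Subtype.ext (by simp))
    (fun c x y => Subtype.ext (by simp))
    (fun x y y' => Subtype.ext (by simp))
    (fun c x y => Subtype.ext (by simp))

theorem bS_val (x y : SS K) : (bS K x y).1 = bM K x y := rfl

noncomputable def I0 (K : Type) [Field K] : Submodule K (SS K) := (II K).comap (SS K).subtype

noncomputable def bA1 (K : Type) [Field K] : (SS K ⧸ I0 K) →ₗ[K] SS K →ₗ[K] (SS K ⧸ I0 K) :=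
  (I0 K).liftQ ((bS K).compr₂ (I0 K).mkQ) fun x hx => by
    rw [LinearMap.mem_ker]
    ext y
    exact (Submodule.Quotient.mk_eq_zero _).2 (II_mul hx y.2)

noncomputable def bA (K : Type) [Field K] :
    (SS K ⧸ I0 K) →ₗ[K] (SS K ⧸ I0 K) →ₗ[K] (SS K ⧸ I0 K) :=
  ((I0 K).liftQ (bA1 K).flip fun x hx => by
    rw [LinearMap.mem_ker]
    ext y
    refine (Submodule.Quotient.mk_eq_zero _).2 ?_
    change bM K y x ∈ II K
    rw [bM_apply, mm_comm]
    exact II_mul hx y.2).flip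

theorem bA_mk (x y : SS K) : (I0 K).mkQ (bS K x y) = bA K ((I0 K).mkQ x) ((I0 K).mkQ y) := rfl

theorem satA [Infinite K] {f : Fr K} (hf : Sat (bJ K) f) : Sat (bA K) f :=
  Sat.quo (bS K) (bA K) (I0 K).mkQ bA_mk (Submodule.mkQ_surjective _)
    (Sat.sub (bS K) (bM K) (fun _ : Unit => (SS K).subtype) (fun _ _ _ => rfl)
      (fun _ h => Subtype.ext (h ())) (satM hf))

noncomputable def el (K : Type) [Field K] (d : ℕ) (u : MM ℤ) (h : Mon d u) : SS K ⧸ I0 K :=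
  (I0 K).mkQ ⟨emb K d u, Submodule.subset_span ⟨d, u, h, rfl⟩⟩

theorem el_mul {a b : ℕ} {u v : MM ℤ} (hu : Mon a u) (hv : Mon b v) :
    bA K (el K a u hu) (el K b v hv) = el K (a + b) (mm u v) (hu.mul hv) := by
  unfold el
  rw [← bA_mk]
  congr 1
  exact Subtype.ext (emb_mul a b u v)

noncomputable def LA (K : Type) [Field K] [CharP K 3] : (SS K ⧸ I0 K) →ₗ[K] K :=
  (I0 K).liftQ ((La K).comp (SS K).subtype) fun _ hx => La_II hx

theorem LA_el [CharP K 3] {d : ℕ} {u : MM ℤ} (h : Mon d u) :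
    LA K (el K d u h) = if d = 5 then (mu u : K) else 0 := La_emb d u

def UU {M : Type} [AddCommGroup M] [Module K M] (b : M →ₗ[K] M →ₗ[K] M) (x w : M) : M :=
  b x (b x w) + b x (b x w) - b (b x x) w

theorem key [CharP K 3] : ∃ x y z : SS K ⧸ I0 K, bA K x y = 0 ∧
    UU (bA K) x (UU (bA K) y z) ≠ UU (bA K) y (UU (bA K) x z) := by
  refine ⟨el K 1 _ (Mon.gen 0), el K 1 _ (Mon.gen 1), el K 1 _ (Mon.gen 2), ?_, fun h => ?_⟩
  · rw [el_mul]
    exact (Submodule.Quotient.mk_eq_zero _).2 (Submodule.subset_span ⟨2, kk, Idl.base, rfl⟩)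
  · have h2 := congrArg (LA K) h
    simp only [UU, map_add, map_sub, el_mul, LA_el] at h2
    rw [← sub_eq_zero] at h2
    norm_num only [if_true] at h2
    simp only [← Int.cast_add, ← Int.cast_sub] at h2
    have h3 := (CharP.intCast_eq_zero_iff K 3 _).1 h2
    revert h3
    decide +kernel

end Pool.Agent.H.MP_7d9e78_al
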